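import Pool.Agent.Helper6.CS.Goals2

/-!
# Packet CS-EE (MP_81e84b_lc): the limit word
-/

namespace Pool.Agent.Helper72.CS

open Pool.Agent.Helper6.CS

set_option synthInstance.maxSize 1000000000

theorem t_EE : Pool.Agent.Helper6.CS.G_EE := by
  intro M _ a F s hF hs hF0 hF1 hOs
  have := hF
  have := hs
  -- (A)
  have hA : ∀ j m : M, (F j).len ≤ (F (j + m)).len ∧
      ∀ i, i < (F j).len → (F (j + m)).get i = (F j).get i := by
    intro j
    refine ind (P := fun m => (F j).len ≤ (F (j + m)).len ∧
      ∀ i, i < (F j).len → (F (j + m)).get i = (F j).get i) inferInstance ?_ ?_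
    · rw [add_zero]
      exact ⟨le_rfl, fun i _ => rfl⟩
    · rintro m ⟨h1, h2⟩
      have e : F (j + (m + 1)) = F (j + m) ++ s (j + m) ++ Wd.sg (a + (j + m)) := by
        rw [← add_assoc, hF1]
      rw [e]
      refine ⟨?_, fun i hi => ?_⟩
      · simp only [Wd.len_append, Wd.len_sg]
        exact h1.trans ((le_add_of_nonneg_right (World.zero_le' _)).trans
          (le_add_of_nonneg_right (World.zero_le' _)))
      · have h3 : i < (F (j + m)).len := lt_of_lt_of_le hi h1
        have h4 : i < (F (j + m) ++ s (j + m)).len := by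
          rw [Wd.len_append]
          exact lt_of_lt_of_le h3 (le_add_of_nonneg_right (World.zero_le' _))
        rw [Wd.get_append_left _ _ h4, Wd.get_append_left _ _ h3]
        exact h2 i hi
  -- (A'): monotone lengths
  have hA' : ∀ j k : M, j ≤ k → (F j).len ≤ (F k).len ∧
      ∀ i, i < (F j).len → (F k).get i = (F j).get i := by
    intro j k hjk
    obtain ⟨m, rfl⟩ := World.exists_add j k hjk
    exact hA j m
  -- (B)
  have hB : ∀ j : M, j ≤ (F j).len := by
    refine ind (P := fun j => j ≤ (F j).len) inferInstance (World.zero_le' _) ?_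
    intro j ih
    rw [hF1]
    simp only [Wd.len_append, Wd.len_sg]
    exact add_le_add_left (ih.trans (le_add_of_nonneg_right (World.zero_le' _))) _
  -- (C)
  have hC : ∀ j : M, Over (a + j) (F j) := by
    refine ind (P := fun j => Over (a + j) (F j)) inferInstance ?_ ?_
    · rw [hF0]; exact Over.nil _
    · intro j ih
      have hle : a + j ≤ a + (j + 1) := by
        rw [← add_assoc]; exact le_add_of_nonneg_right (World.zero_le' _)
      rw [hF1, Over.append_iff, Over.append_iff]
      refine ⟨⟨ih.mono hle, (hOs j).mono hle⟩, ?_⟩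
      rw [Over.sg_iff, ← add_assoc, World.lt_succ]
  -- the word
  let W : M → M := fun p => (F (p + 1)).get p
  have hW : IFn M W := by
    change IFn M fun p : M => (F (p + 1)).get p
    infer_instance
  -- (D)
  have hD : ∀ j p : M, p < (F j).len → W p = (F j).get p := by
    intro j p hp
    change (F (p + 1)).get p = (F j).get p
    rcases le_total j (p + 1) with h | h
    · exact (hA' _ _ h).2 p hp
    · exact ((hA' _ _ h).2 p (lt_of_lt_of_le ((World.lt_succ _ _).2 le_rfl) (hB _))).symm
  -- positions
  have hE1 : ∀ j : M, ((F j ++ s j).len) < (F (j + 1)).len := by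
    intro j
    rw [hF1, Wd.len_append (F j ++ s j), Wd.len_sg]
    exact (World.lt_succ _ _).2 le_rfl
  have hE2 : ∀ j p : M, p < (F j ++ s j).len → W p = (F j ++ s j).get p := by
    intro j p hp
    rw [hD (j + 1) p (hp.trans (hE1 j)), hF1, Wd.get_append_left _ _ hp]
  have hE3 : ∀ j : M, W (F j ++ s j).len = a + j := by
    intro j
    rw [hD (j + 1) _ (hE1 j), hF1]
    have h := Wd.get_append_right (F j ++ s j) (Wd.sg (a + j)) 0
    rw [add_zero, Wd.get_sg_zero] at h
    exact h
  have hE4 : ∀ j p : M, p < (F j ++ s j).len → W p < a + j := by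
    intro j p hp
    rw [hE2 j p hp]
    exact (Over.append_iff.2 ⟨hC j, hOs j⟩) p hp
  have hfo : ∀ j : M, fo a W j = (F j ++ s j).len := by
    intro j
    have h1 : fo a W j ≤ (F j ++ s j).len := lst_le (P := fun p => W p = a + j) (hE3 j)
    refine le_antisymm h1 (not_lt.1 fun h2 => ?_)
    have h3 : W (fo a W j) = a + j := lst_spec (P := fun p => W p = a + j) ⟨_, hE3 j⟩
    exact absurd h3 (hE4 j _ h2).ne
  refine ⟨W, hW, ⟨fun i => ⟨_, hE3 i⟩, ?_⟩, ?_, ?_⟩
  · intro i p hp
    have h1 : (F (i + 1) ++ s (i + 1)).len ≤ p := not_lt.1 fun h => absurd hp (hE4 _ _ h).ne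
    refine ⟨_, ?_, hE3 i⟩
    refine lt_of_lt_of_le (hE1 i) (le_trans ?_ h1)
    rw [Wd.len_append]
    exact le_add_of_nonneg_right (World.zero_le' _)
  · intro v
    refine Wd.ext' ?_ ?_
    · unfold inst isub
      rw [Wd.len_of, Wd.len_of, hfo]
    · intro i hi
      unfold inst at hi
      rw [Wd.len_of] at hi
      have hi' : i < (F v.len ++ s v.len).len := by rwa [hfo] at hi
      unfold inst isub
      rw [Wd.get_of_lt _ _ hi, Wd.get_of_lt _ _ hi', hE2 _ _ hi']
  · intro j v hv
    have hj : v.len + 1 ≤ j := World.add_one_le hv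
    have hP : (F v.len ++ s v.len).len < (F j).len :=
      lt_of_lt_of_le (hE1 v.len) (hA' _ _ hj).1
    have hfj : fo a (F j).get v.len = (F v.len ++ s v.len).len := by
      have h0 : (F j).get (F v.len ++ s v.len).len = a + v.len := by
        rw [← hD j _ hP, hE3]
      have h1 : fo a (F j).get v.len ≤ (F v.len ++ s v.len).len :=
        lst_le (P := fun p => (F j).get p = a + v.len) h0
      refine le_antisymm h1 (not_lt.1 fun h2 => ?_)
      have h3 : (F j).get (fo a (F j).get v.len) = a + v.len :=
        lst_spec (P := fun p => (F j).get p = a + v.len) ⟨_, h0⟩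
      rw [← hD j _ (h2.trans hP)] at h3
      exact absurd h3 (hE4 _ _ h2).ne
    refine Wd.ext' ?_ ?_
    · unfold inst
      rw [Wd.len_of, Wd.len_of, hfo, hfj]
    · intro i hi
      unfold inst at hi
      rw [Wd.len_of] at hi
      have hi1 : i < (F v.len ++ s v.len).len := by rwa [hfj] at hi
      have hi2 : i < fo a W v.len := by rwa [hfo]
      unfold inst
      rw [Wd.get_of_lt _ _ hi, Wd.get_of_lt _ _ hi2, hD j i (hi1.trans hP)]

end Pool.Agent.Helper72.CS
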