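import Pool.Agent.Helper6.CS.Goals1

/-!
# Packet CS-L1F (MP_81e84b_lc): a finite union of non-PS sets is not PS
-/

namespace Pool.Agent.Helper72.CS

open Pool.Agent.Helper6.CS

set_option synthInstance.maxSize 1000000000 in
theorem t_L1F (hL1 : G_L1) (hPSM : G_PSM) : Pool.Agent.Helper6.CS.G_L1F := by
  intro M _ b E hE N
  have := hE
  refine ind (P := fun N => PS b (fun w => ∃ k, k < N ∧ E k w) → ∃ k, k < N ∧ PS b (E k))
    inferInstance ?_ ?_ N
  · rintro ⟨p, hp⟩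
    obtain ⟨y, _, h⟩ := hp 0
    obtain ⟨t, _, _, k, hk, _⟩ := h (Wd.nil M) (Over.nil b) (by simp)
    exact absurd hk (not_lt.2 (World.zero_le' k))
  · intro n ih h
    have h1 : PS b (fun w => (∃ k, k < n ∧ E k w) ∨ E n w) := by
      refine hPSM M b _ _ ?_ h
      rintro w _ ⟨k, hk, hw⟩
      rw [World.lt_succ] at hk
      rcases hk.lt_or_eq with hlt | rfl
      · exact Or.inl ⟨k, hlt, hw⟩
      · exact Or.inr hw
    rcases hL1 M b (fun w => ∃ k, k < n ∧ E k w) (E n) h1 with h2 | h2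
    · obtain ⟨k, hk, h3⟩ := ih h2
      exact ⟨k, (World.lt_succ _ _).2 hk.le, h3⟩
    · exact ⟨n, (World.lt_succ _ _).2 le_rfl, h2⟩

end Pool.Agent.Helper72.CS
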